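import Mathlib
import Pool.Agent.Run7.h102.MainB2

set_option autoImplicit false

namespace Pool.Agent.Results.MP_3a87b6_an.HypPeriodTwo

/-- Let `J c` be the Julia set of `z ↦ c exp z`. If `z ↦ a exp z` has an attracting cycle of
period at most two, `z ↦ b exp z` has an attracting cycle (of any period), and `J a`, `J b` are
homeomorphic, then a homeomorphism of the plane carries `J a` onto `J b`. -/
theorem result :
    ∀ J : ℂ → Set ℂ,
      (∀ c z : ℂ, z ∈ J c ↔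
        ¬ ∃ U ∈ nhds z, ∀ φ : ℕ → ℕ, StrictMono φ → ∃ ψ : ℕ → ℕ, StrictMono ψ ∧
          ((∃ g : ℂ → ℂ, TendstoLocallyUniformlyOn
              (fun k : ℕ => (fun w : ℂ => c * Complex.exp w)^[φ (ψ k)]) g Filter.atTop U) ∨
           (∀ K : Set ℂ, K ⊆ U → IsCompact K → ∀ R : ℝ, ∀ᶠ k in Filter.atTop,
              ∀ x ∈ K, R < ‖(fun w : ℂ => c * Complex.exp w)^[φ (ψ k)] x‖))) →
      ∀ a b : ℂ, a ≠ 0 → b ≠ 0 →
        (∃ (p : ℕ) (z : ℂ), 0 < p ∧ p ≤ 2 ∧ (fun w : ℂ => a * Complex.exp w)^[p] z = z ∧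
          ‖deriv ((fun w : ℂ => a * Complex.exp w)^[p]) z‖ < 1) →
        (∃ (q : ℕ) (z : ℂ), 0 < q ∧ (fun w : ℂ => b * Complex.exp w)^[q] z = z ∧
          ‖deriv ((fun w : ℂ => b * Complex.exp w)^[q]) z‖ < 1) →
        Nonempty (↥(J a) ≃ₜ ↥(J b)) → ∃ h : ℂ ≃ₜ ℂ, h '' J a = J b :=
  fun J hJ a b ha hb h1 h2 h3 => Run7.h102.mainB_form J hJ a b ha hb h1 h2 h3

end Pool.Agent.Results.MP_3a87b6_an.HypPeriodTwo
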